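import Mathlib
import Pool.Agent.helper4.Amza.Lower

/-!
The amenability constant of the central Fourier algebra is not monotone under passing to the
derived subgroup, and the derived subgroup can have arbitrarily large constant while the group has
constant at most nine.

The groups are the sharply two-transitive groups of the form `F ⋊ F^*` on the field `F` with
`p^2` elements, in which a square `y` acts by `a ↦ y * a` and a nonsquare `y` acts by
`a ↦ y * a ^ p`. The derived subgroup is the Frobenius group of order `p^2 * (p + 1) / 2`, whose
constant is at least `p - 1 / 2`.
-/

theorem Pool.Agent.Results.MP_3464eb_al.DerivedSubgroup.result :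
    ∀ C : ℝ, ∃ (G : Type) (_ : Group G) (_ : Finite G),
      Pool.Agent.helper4.Amza.AMZA G ≤ 9 ∧
        C < Pool.Agent.helper4.Amza.AMZA ↥(commutator G) :=
  Pool.Agent.helper4.Amza.main
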